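import Mathlib

set_option autoImplicit false

/-!
# Even log-concave functions on the line
-/

namespace Pool.Agent.TH591.Un

open MeasureTheory Set
open scoped ENNReal NNReal

/-- A positive even log-concave function with finite first moment. -/
structure LC (r : ℝ → ℝ) : Prop where
  meas : Measurable r
  pos : ∀ y, 0 < r y
  even : ∀ y, r (-y) = r y
  logc : ∀ a b : ℝ, ∀ s : ℝ, 0 < s → s < 1 → r a ^ s * r b ^ (1 - s) ≤ r (s * a + (1 - s) * b)
  int : Integrable r
  mom : Integrable fun y => r y * |y|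

variable {r : ℝ → ℝ}

theorem LC.mono (h : LC r) (y z : ℝ) (hyz : |y| ≤ |z|) : r z ≤ r y := by
  rcases eq_or_ne z 0 with rfl | hz
  · have : y = 0 := by simpa using hyz
    rw [this]
  have hz0 : 0 < |z| := abs_pos.2 hz
  rcases eq_or_lt_of_le hyz with h1 | h1
  · rcases abs_eq_abs.1 h1 with h2 | h2
    · rw [h2]
    · rw [h2, h.even]
  · have hq : |y / z| < 1 := by rw [abs_div, div_lt_one hz0]; exact h1
    obtain ⟨h2, h3⟩ := abs_lt.1 hq
    have h4 := h.logc z (-z) ((1 + y / z) / 2) (by linarith) (by linarith)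
    rw [h.even z, ← Real.rpow_add (h.pos z)] at h4
    have e1 : (1 + y / z) / 2 + (1 - (1 + y / z) / 2) = 1 := by ring
    have e2 : (1 + y / z) / 2 * z + (1 - (1 + y / z) / 2) * -z = y := by
      field_simp
      ring
    rw [e1, e2, Real.rpow_one] at h4
    exact h4

theorem LC.R_pos (h : LC r) : 0 < ∫ y, r y := by
  rw [integral_pos_iff_support_of_nonneg (fun y => (h.pos y).le) h.int]
  have : Function.support r = univ := by
    ext y; simp [(h.pos y).ne']
  rw [this]
  simp

theorem LC.half (h : LC r) : r ((∫ y, r y) / r 0) ≤ r 0 / 2 := by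
  set R := ∫ y, r y with hR
  have hR0 : 0 < R := h.R_pos
  set t := R / r 0 with ht
  have ht0 : 0 < t := div_pos hR0 (h.pos 0)
  have h1 : 2 * t * r t ≤ R := by
    calc 2 * t * r t = ∫ y in Icc (-t) t, r t := by
          rw [setIntegral_const, smul_eq_mul]
          simp only [measureReal_def, Real.volume_Icc]
          rw [ENNReal.toReal_ofReal (by linarith)]
          ring
      _ ≤ ∫ y in Icc (-t) t, r y := by
          refine setIntegral_mono_on (integrableOn_const (by simp) (by simp)) h.int.integrableOn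
            measurableSet_Icc fun y hy => ?_
          exact h.mono y t (by rw [abs_of_pos ht0]; exact abs_le.2 hy)
      _ ≤ R := setIntegral_le_integral h.int (Filter.Eventually.of_forall fun y => (h.pos y).le)
  have h2 : t * r 0 = R := by rw [ht]; field_simp [(h.pos 0).ne']
  rw [← h2] at h1
  have h3 : r t * 2 * t ≤ r 0 * t := by linarith
  have h4 : r t * 2 ≤ r 0 := le_of_mul_le_mul_right h3 ht0
  linarith

theorem LC.exp_bound (h : LC r) (y : ℝ) :
    r y ≤ 2 * r 0 * Real.exp (-(Real.log 2 / ((∫ y, r y) / r 0) * |y|)) := by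
  set R := ∫ y, r y with hR
  have hR0 : 0 < R := h.R_pos
  set t := R / r 0 with ht
  have ht0 : 0 < t := div_pos hR0 (h.pos 0)
  have hlog : 0 < Real.log 2 := Real.log_pos (by norm_num)
  rcases lt_or_ge |y| t with hy | hy
  · have h1 : Real.exp (-(Real.log 2)) ≤ Real.exp (-(Real.log 2 / t * |y|)) := by
      apply Real.exp_le_exp.2
      rw [neg_le_neg_iff, div_mul_eq_mul_div, div_le_iff₀ ht0]
      exact mul_le_mul_of_nonneg_left hy.le hlog.le
    rw [Real.exp_neg, Real.exp_log (by norm_num)] at h1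
    have h2 := h.mono 0 y (by simp)
    have h3 := h.pos 0
    nlinarith
  · have hy0 : 0 < |y| := ht0.trans_le hy
    have hr : r t ≤ r 0 / 2 := h.half
    have hry : r y = r |y| := by
      rcases abs_choice y with h1 | h1
      · rw [h1]
      · rw [h1, h.even]
    rcases eq_or_lt_of_le hy with h1 | h1
    · rw [hry, ← h1]
      have e : Real.log 2 / t * t = Real.log 2 := by field_simp
      rw [e, Real.exp_neg, Real.exp_log (by norm_num)]
      have := h.pos 0
      linarith
    · set s := t / |y| with hs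
      have hs0 : 0 < s := div_pos ht0 hy0
      have hs1 : s < 1 := (div_lt_one hy0).2 h1
      have h2 := h.logc |y| 0 s hs0 hs1
      have e1 : s * |y| + (1 - s) * 0 = t := by rw [hs]; field_simp; ring
      rw [e1, ← hry] at h2
      have h3 : (r y / r 0) ^ s ≤ 1 / 2 := by
        rw [Real.div_rpow (h.pos y).le (h.pos 0).le, div_le_iff₀ (Real.rpow_pos_of_pos (h.pos 0) _)]
        have h4 : r y ^ s * r 0 ^ (1 - s) ≤ r 0 / 2 := h2.trans hr
        rw [Real.rpow_sub (h.pos 0), Real.rpow_one] at h4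
        have h5 := Real.rpow_pos_of_pos (h.pos 0) s
        have h6 := h.pos 0
        rw [mul_div_assoc', div_le_iff₀ h5] at h4
        have h7 : (r y ^ s) * r 0 ≤ (1 / 2 * r 0 ^ s) * r 0 := by linarith
        exact le_of_mul_le_mul_right h7 h6
      have h4 : r y / r 0 ≤ Real.exp (-(Real.log 2 / t * |y|)) := by
        have h5 : 0 < r y / r 0 := div_pos (h.pos y) (h.pos 0)
        have h6 : Real.log (r y / r 0) * s ≤ -Real.log 2 := by
          have h7 := Real.log_le_log (Real.rpow_pos_of_pos h5 _) h3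
          rw [Real.log_rpow h5, one_div, Real.log_inv] at h7
          linarith
        rw [← Real.log_le_iff_le_exp h5]
        have h8 : Real.log (r y / r 0) ≤ -Real.log 2 / s := by
          rw [le_div_iff₀ hs0]; exact h6
        refine h8.trans (le_of_eq ?_)
        rw [hs]
        field_simp
      rw [div_le_iff₀ (h.pos 0)] at h4
      have h5 := h.pos 0
      have h6 := Real.exp_pos (-(Real.log 2 / t * |y|))
      nlinarith

theorem integral_sq_exp (c : ℝ) (hc : 0 < c) :
    Integrable (fun y : ℝ => y ^ 2 * Real.exp (-(c * |y|))) ∧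
      ∫ y : ℝ, y ^ 2 * Real.exp (-(c * |y|)) = 4 / c ^ 3 := by
  have e0 : (fun y : ℝ => y ^ 2 * Real.exp (-(c * |y|)))
      = fun y : ℝ => (fun t : ℝ => t ^ 2 * Real.exp (-(c * t))) |y| := by
    funext y
    simp only [sq_abs]
  have hI : ∫ t in Ioi (0 : ℝ), t ^ 2 * Real.exp (-(c * t)) = 2 / c ^ 3 := by
    have h1 := Real.integral_rpow_mul_exp_neg_mul_Ioi (a := 3) (r := c) (by norm_num) hc
    have h2 : Real.Gamma 3 = 2 := by
      have h3 := Real.Gamma_nat_eq_factorial 2
      have h4 : ((2 : ℕ) : ℝ) + 1 = 3 := by norm_num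
      rw [h4] at h3
      rw [h3]
      norm_num
    rw [h2] at h1
    have h3 : ∫ t in Ioi (0 : ℝ), t ^ 2 * Real.exp (-(c * t))
        = ∫ t in Ioi (0 : ℝ), t ^ ((3 : ℝ) - 1) * Real.exp (-(c * t)) := by
      refine setIntegral_congr_fun measurableSet_Ioi fun t ht => ?_
      show t ^ 2 * _ = t ^ ((3 : ℝ) - 1) * _
      rw [show (3 : ℝ) - 1 = ((2 : ℕ) : ℝ) by norm_num, Real.rpow_natCast]
    rw [h3, h1, show (3 : ℝ) = ((3 : ℕ) : ℝ) by norm_num, Real.rpow_natCast]
    field_simp
  have hv : ∫ y : ℝ, y ^ 2 * Real.exp (-(c * |y|)) = 4 / c ^ 3 := by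
    have h1 := integral_comp_abs (f := fun t : ℝ => t ^ 2 * Real.exp (-(c * t)))
    rw [hI] at h1
    rw [e0, h1]
    ring
  refine ⟨?_, hv⟩
  by_contra hcon
  rw [integral_undef hcon] at hv
  have : 0 < 4 / c ^ 3 := by positivity
  linarith

/-- the second moment is finite and controlled -/
theorem LC.second (h : LC r) :
    ∫⁻ y, ENNReal.ofReal (r y * y ^ 2)
      ≤ ENNReal.ofReal (25 * (∫ y, r y) ^ 3 / (r 0) ^ 2) := by
  set R := ∫ y, r y with hR
  have hR0 : 0 < R := h.R_pos
  set t := R / r 0 with ht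
  have ht0 : 0 < t := div_pos hR0 (h.pos 0)
  have hlog : 0 < Real.log 2 := Real.log_pos (by norm_num)
  set c := Real.log 2 / t with hc
  have hc0 : 0 < c := div_pos hlog ht0
  obtain ⟨hi, hv⟩ := integral_sq_exp c hc0
  have h0 := h.pos 0
  calc ∫⁻ y, ENNReal.ofReal (r y * y ^ 2)
      ≤ ∫⁻ y, ENNReal.ofReal (2 * r 0 * (y ^ 2 * Real.exp (-(c * |y|)))) := by
        refine lintegral_mono fun y => ENNReal.ofReal_le_ofReal ?_
        have h1 := h.exp_bound y
        rw [← hR, ← ht, ← hc] at h1
        calc r y * y ^ 2 ≤ 2 * r 0 * Real.exp (-(c * |y|)) * y ^ 2 :=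
              mul_le_mul_of_nonneg_right h1 (sq_nonneg y)
          _ = _ := by ring
    _ = ENNReal.ofReal (∫ y, 2 * r 0 * (y ^ 2 * Real.exp (-(c * |y|)))) := by
        rw [ofReal_integral_eq_lintegral_ofReal (hi.const_mul _)]
        exact Filter.Eventually.of_forall fun y => by positivity
    _ ≤ _ := by
        apply ENNReal.ofReal_le_ofReal
        rw [integral_const_mul, hv]
        have h1 : (0.6931 : ℝ) < Real.log 2 := by
          have := Real.log_two_gt_d9
          linarith
        have h2 : (8 : ℝ) / Real.log 2 ^ 3 ≤ 25 := by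
          rw [div_le_iff₀ (by positivity)]
          have h3 : (0.6931 : ℝ) ^ 3 ≤ Real.log 2 ^ 3 := by gcongr
          have h4 : (8 : ℝ) ≤ 25 * 0.6931 ^ 3 := by norm_num
          linarith
        have e1 : 2 * r 0 * (4 / c ^ 3) = (8 / Real.log 2 ^ 3) * (R ^ 3 / (r 0) ^ 2) := by
          rw [hc, ht]
          field_simp
          norm_num
        rw [e1]
        have h5 : 0 ≤ R ^ 3 / (r 0) ^ 2 := by positivity
        calc 8 / Real.log 2 ^ 3 * (R ^ 3 / (r 0) ^ 2) ≤ 25 * (R ^ 3 / (r 0) ^ 2) :=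
              mul_le_mul_of_nonneg_right h2 h5
          _ = _ := by ring

theorem LC.first (h : LC r) : (∫ y, r y) ^ 2 ≤ 8 * r 0 * ∫ y, r y * |y| := by
  set R := ∫ y, r y with hR
  have hR0 : 0 < R := h.R_pos
  have h0 := h.pos 0
  set a := R / (4 * r 0) with ha
  have ha0 : 0 < a := by positivity
  have h1 : ∫ y in Icc (-a) a, r y ≤ R / 2 := by
    calc ∫ y in Icc (-a) a, r y ≤ ∫ y in Icc (-a) a, r 0 := by
          refine setIntegral_mono_on h.int.integrableOn (integrableOn_const (by simp) (by simp))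
            measurableSet_Icc fun y hy => h.mono 0 y (by simp)
      _ = 2 * a * r 0 := by
          rw [setIntegral_const, smul_eq_mul]
          simp only [measureReal_def, Real.volume_Icc]
          rw [ENNReal.toReal_ofReal (by linarith)]
          ring
      _ = R / 2 := by rw [ha]; field_simp; norm_num
  have h2 : R = (∫ y in Icc (-a) a, r y) + ∫ y in (Icc (-a) a)ᶜ, r y :=
    (integral_add_compl measurableSet_Icc h.int).symm
  have h3 : R / 2 ≤ ∫ y in (Icc (-a) a)ᶜ, r y := by linarith
  have h4 : a * ∫ y in (Icc (-a) a)ᶜ, r y ≤ ∫ y in (Icc (-a) a)ᶜ, r y * |y| := by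
    rw [← integral_const_mul]
    refine setIntegral_mono_on (h.int.integrableOn.const_mul _) h.mom.integrableOn
      measurableSet_Icc.compl fun y hy => ?_
    have h5 : a ≤ |y| := by
      by_contra h6
      rw [not_le] at h6
      exact hy (abs_le.1 h6.le)
    rw [mul_comm]
    exact mul_le_mul_of_nonneg_left h5 (h.pos y).le
  have h5 : ∫ y in (Icc (-a) a)ᶜ, r y * |y| ≤ ∫ y, r y * |y| :=
    setIntegral_le_integral h.mom (Filter.Eventually.of_forall fun y =>
      mul_nonneg (h.pos y).le (abs_nonneg y))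
  have h6 : a * (R / 2) ≤ ∫ y, r y * |y| :=
    (mul_le_mul_of_nonneg_left h3 ha0.le).trans (h4.trans h5)
  have e : R ^ 2 = 8 * r 0 * (a * (R / 2)) := by
    rw [ha]; field_simp; norm_num
  rw [e]
  exact mul_le_mul_of_nonneg_left h6 (by positivity)

/-- `r(0) ∫ r y² ≤ 200 (∫ r) (∫ r |y|)` -/
theorem LC.main (h : LC r) :
    ENNReal.ofReal (r 0) * ∫⁻ y, ENNReal.ofReal (r y * y ^ 2)
      ≤ ENNReal.ofReal (200 * (∫ y, r y) * ∫ y, r y * |y|) := by
  have h0 := h.pos 0
  have hR0 : 0 < ∫ y, r y := h.R_pos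
  calc ENNReal.ofReal (r 0) * ∫⁻ y, ENNReal.ofReal (r y * y ^ 2)
      ≤ ENNReal.ofReal (r 0) * ENNReal.ofReal (25 * (∫ y, r y) ^ 3 / (r 0) ^ 2) := by
        gcongr
        exact h.second
    _ = ENNReal.ofReal (25 * (∫ y, r y) * ((∫ y, r y) ^ 2 / r 0)) := by
        rw [← ENNReal.ofReal_mul h0.le]
        congr 1
        field_simp
    _ ≤ _ := by
        apply ENNReal.ofReal_le_ofReal
        have h1 : (∫ y, r y) ^ 2 / r 0 ≤ 8 * ∫ y, r y * |y| := by
          rw [div_le_iff₀ h0]
          have := h.first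
          linarith
        calc 25 * (∫ y, r y) * ((∫ y, r y) ^ 2 / r 0)
            ≤ 25 * (∫ y, r y) * (8 * ∫ y, r y * |y|) := by gcongr
          _ = _ := by ring

end Pool.Agent.TH591.Un
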