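import Mathlib
import Pool.Agent.TH591.Sm.Flat
import Pool.Agent.TH591.Un.OneD

set_option autoImplicit false
set_option linter.unusedSectionVars false

/-!
# The marginal of `exp (-g)` in the direction of a linear functional
-/

namespace Pool.Agent.TH591.Un

open MeasureTheory Set Filter
open scoped ENNReal NNReal Topology
open Pool.Agent.TH591.Sm

variable {E : Type*} [NormedAddCommGroup E] [InnerProductSpace ℝ E] [FiniteDimensional ℝ E]
  [MeasurableSpace E] [BorelSpace E]

theorem exists_L (l : E →ₗ[ℝ] ℝ) (u : E) (hu : l u = 1) :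
    ∃ (b : ℕ) (L : ((Fin 1 → ℝ) × (Fin b → ℝ)) ≃ₗ[ℝ] E), ∀ y k, l (L (y, k)) = y 0 := by
  let W := LinearMap.ker l
  let b := Module.finrank ℝ W
  let e2 : (Fin b → ℝ) ≃ₗ[ℝ] W := LinearEquiv.ofFinrankEq _ _ (by rw [Module.finrank_fin_fun])
  let M : ((Fin 1 → ℝ) × (Fin b → ℝ)) →ₗ[ℝ] E :=
    { toFun := fun z => (z.1 0) • u + (e2 z.2 : E)
      map_add' := fun z w => by
        simp only [Prod.fst_add, Prod.snd_add, Pi.add_apply, map_add, Submodule.coe_add]
        module
      map_smul' := fun s z => by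
        simp only [Prod.smul_fst, Prod.smul_snd, Pi.smul_apply, smul_eq_mul, map_smul,
          Submodule.coe_smul, RingHom.id_apply]
        module }
  have hM : ∀ z, M z = (z.1 0) • u + (e2 z.2 : E) := fun z => rfl
  have hl : ∀ z, l (M z) = z.1 0 := by
    intro z
    have h0 : l (e2 z.2 : E) = 0 := LinearMap.mem_ker.1 (e2 z.2).2
    rw [hM, map_add, map_smul, hu, h0, smul_eq_mul, mul_one, add_zero]
  have hinj : Function.Injective M := by
    rw [injective_iff_map_eq_zero]
    intro z hz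
    have h1 : z.1 0 = 0 := by rw [← hl z, hz, map_zero]
    rw [hM, h1, zero_smul, zero_add] at hz
    have h2 : z.2 = 0 := by
      have : e2 z.2 = 0 := by exact_mod_cast hz
      exact (LinearEquiv.map_eq_zero_iff e2).1 this
    refine Prod.ext ?_ h2
    funext i
    rw [Subsingleton.elim i 0]
    exact h1
  have hsur : Function.Surjective M := by
    intro x
    have hx : x - (l x) • u ∈ W := by
      rw [LinearMap.mem_ker, map_sub, map_smul, hu, smul_eq_mul, mul_one, sub_self]
    refine ⟨(fun _ => l x, e2.symm ⟨_, hx⟩), ?_⟩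
    rw [hM]
    simp
  exact ⟨b, LinearEquiv.ofBijective M ⟨hinj, hsur⟩, fun y k => hl (y, k)⟩

/-- the facts about the marginal which we need -/
theorem marginal (g : Seminorm ℝ E) (c : ℝ) (hc : 0 < c) (hcp : ∀ x, c * ‖x‖ ≤ g x)
    (l : E →ₗ[ℝ] ℝ) (u : E) (hu : l u = 1) :
    ∃ q : ℝ≥0∞, q ≠ ⊤ ∧
      q * (∫⁻ x, ex g x * ENNReal.ofReal (l x ^ 2))
        ≤ ENNReal.ofReal 200 * ((∫⁻ x, ex g x) * ∫⁻ x, ex g x * ENNReal.ofReal |l x|) ∧
      ∀ S : Set ℝ, MeasurableSet S →
        ∫⁻ x in {x | l x ∈ S}, ex g x ≤ q * volume S := by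
  obtain ⟨b, L, hL⟩ := exists_L l u hu
  have hg := semi_cont g
  have hlc : Continuous l := l.continuous_of_finiteDimensional
  obtain ⟨κ, hκ0, hκt, hκ⟩ := exists_kappa L
  have hD := rr_dens g L hg c hc hcp
  set r : (Fin 1 → ℝ) → ℝ := fun y => (rho g L y).toReal with hr
  have hrho : ∀ y, rho g L y = ENNReal.ofReal (r y) := fun y =>
    (ENNReal.ofReal_toReal (rho_lt_top g L hg c hc hcp y).ne).symm
  -- change of variables to the line
  let φ := (MeasurableEquiv.funUnique (Fin 1) ℝ).symm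
  have hφ : MeasurePreserving φ volume volume := (volume_preserving_funUnique (Fin 1) ℝ).symm _
  have hφv : ∀ t, φ t = fun _ => t := by
    intro t
    funext i
    rfl
  set r1 : ℝ → ℝ := fun t => r (φ t) with hr1
  have hI1 : ∀ F : (Fin 1 → ℝ) → ℝ, ∫ y, F y = ∫ t, F (φ t) := fun F =>
    (hφ.integral_comp' F).symm
  have hI2 : ∀ F : (Fin 1 → ℝ) → ℝ, Integrable F → Integrable fun t => F (φ t) := fun F hF =>
    hφ.integrable_comp_of_integrable hF
  have hlin : ∀ F : (Fin 1 → ℝ) → ℝ≥0∞, ∫⁻ y, F y = ∫⁻ t, F (φ t) := fun F =>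
    (hφ.lintegral_comp_emb φ.measurableEmbedding F).symm
  let η : Seminorm ℝ (Fin 1 → ℝ) := (normSeminorm ℝ ℝ).comp (LinearMap.proj (0 : Fin 1))
  have hη : ∀ t, η (φ t) = |t| := by
    intro t
    rw [hφv]
    rfl
  have hLC : LC r1 := by
    refine ⟨hD.meas.comp φ.measurable, fun y => hD.pos _, fun y => ?_, fun a b s hs hs1 => ?_,
      hI2 _ hD.int, ?_⟩
    · have h1 := hD.even (φ y)
      have e : φ (-y) = -(φ y) := by rw [hφv, hφv]; rfl
      show r (φ (-y)) = r (φ y)
      rw [e]; exact h1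
    · have h1 := hD.logc (φ a) (φ b) s hs hs1
      have e : s • φ a + (1 - s) • φ b = φ (s * a + (1 - s) * b) := by
        rw [hφv, hφv, hφv]; rfl
      rw [e] at h1
      exact h1
    · have h1 := hI2 _ (hD.mom η)
      refine h1.congr (Eventually.of_forall fun y => ?_)
      simp only [hη]
      rfl
  -- the formula for functions of `l x`
  have hform : ∀ F : ℝ → ℝ≥0∞, Measurable F →
      ∫⁻ x, ex g x * F (l x) = κ * ∫⁻ t, ENNReal.ofReal (r1 t) * F t := by
    intro F hF
    have h1 := lint_rho_mul g L hg κ hκ (fun x => F (l x)) (fun y => F (y 0))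
      (hF.comp hlc.measurable) (fun y k => by rw [hL])
    rw [h1, hlin]
    congr 1
    refine lintegral_congr fun t => ?_
    rw [hrho]
    rfl
  have hR := hLC.R_pos
  have hZ : ∫⁻ x, ex g x = κ * ENNReal.ofReal (∫ t, r1 t) := by
    have h1 := hform (fun _ => 1) measurable_const
    simp only [mul_one] at h1
    rw [h1, ofReal_integral_eq_lintegral_ofReal hLC.int
      (Eventually.of_forall fun t => (hLC.pos t).le)]
  have hM1 : ∫⁻ x, ex g x * ENNReal.ofReal |l x| = κ * ENNReal.ofReal (∫ t, r1 t * |t|) := by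
    have h1 := hform (fun t => ENNReal.ofReal |t|) (by fun_prop)
    rw [h1, ofReal_integral_eq_lintegral_ofReal hLC.mom
      (Eventually.of_forall fun t => mul_nonneg (hLC.pos t).le (abs_nonneg t))]
    congr 1
    refine lintegral_congr fun t => ?_
    rw [ENNReal.ofReal_mul (hLC.pos t).le]
  have hM2 : ∫⁻ x, ex g x * ENNReal.ofReal (l x ^ 2)
      = κ * ∫⁻ t, ENNReal.ofReal (r1 t * t ^ 2) := by
    have h1 := hform (fun t => ENNReal.ofReal (t ^ 2)) (by fun_prop)
    rw [h1]
    congr 1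
    refine lintegral_congr fun t => ?_
    rw [ENNReal.ofReal_mul (hLC.pos t).le]
  refine ⟨κ * ENNReal.ofReal (r1 0), ENNReal.mul_ne_top hκt ENNReal.ofReal_ne_top, ?_, ?_⟩
  · rw [hM2, hZ, hM1]
    have h1 := hLC.main
    have hM1n : 0 ≤ ∫ t, r1 t * |t| :=
      integral_nonneg fun t => mul_nonneg (hLC.pos t).le (abs_nonneg t)
    rw [ENNReal.ofReal_mul (by positivity), ENNReal.ofReal_mul (by norm_num)] at h1
    calc κ * ENNReal.ofReal (r1 0) * (κ * ∫⁻ t, ENNReal.ofReal (r1 t * t ^ 2))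
        = κ * κ * (ENNReal.ofReal (r1 0) * ∫⁻ t, ENNReal.ofReal (r1 t * t ^ 2)) := by ring
      _ ≤ κ * κ * (ENNReal.ofReal 200 * ENNReal.ofReal (∫ t, r1 t) *
            ENNReal.ofReal (∫ t, r1 t * |t|)) := by gcongr
      _ = _ := by ring
  · intro S hS
    have hmS : MeasurableSet {x | l x ∈ S} := hlc.measurable hS
    have h1 := hform (S.indicator fun _ => 1) (measurable_const.indicator hS)
    have h2 : ∫⁻ x, ex g x * S.indicator (fun _ => 1) (l x) = ∫⁻ x in {x | l x ∈ S}, ex g x := by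
      rw [← lintegral_indicator hmS]
      refine lintegral_congr fun x => ?_
      by_cases h : l x ∈ S
      · rw [indicator_of_mem h, indicator_of_mem (show x ∈ {x | l x ∈ S} from h), mul_one]
      · rw [indicator_of_notMem h, indicator_of_notMem (show x ∉ {x | l x ∈ S} from h), mul_zero]
    rw [← h2, h1]
    calc κ * ∫⁻ t, ENNReal.ofReal (r1 t) * S.indicator (fun _ => 1) t
        ≤ κ * ∫⁻ t, ENNReal.ofReal (r1 0) * S.indicator (fun _ => 1) t := by
          gcongr with t
          exact hLC.mono 0 t (by simp)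
      _ = κ * (ENNReal.ofReal (r1 0) * volume S) := by
          rw [lintegral_const_mul' _ _ ENNReal.ofReal_ne_top, lintegral_indicator hS]
          simp
      _ = _ := by ring

end Pool.Agent.TH591.Un
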