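import Mathlib
import Pool.Agent.TH591.Un.Coord

set_option autoImplicit false
set_option linter.unusedSectionVars false

/-!
# The mean of a directional derivative of the norm
-/

namespace Pool.Agent.TH591.Un

open MeasureTheory Set Filter
open scoped ENNReal NNReal Topology
open Pool.Agent.TH591.Sm

variable {E : Type*} [NormedAddCommGroup E] [InnerProductSpace ℝ E] [FiniteDimensional ℝ E]
  [MeasurableSpace E] [BorelSpace E]

theorem df_le (g : Seminorm ℝ E) (x v : E) : |fderiv ℝ g x v| ≤ g v := by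
  by_cases hd : DifferentiableAt ℝ g x
  · have h1 : Tendsto (fun n : ℕ => ((n + 1 : ℕ) : ℝ)) atTop atTop :=
      tendsto_natCast_atTop_atTop.comp (tendsto_add_atTop_nat 1)
    have h2 := hd.hasFDerivAt.lim v (c := fun n : ℕ => ((n + 1 : ℕ) : ℝ)) (l := atTop)
      (tendsto_norm_atTop_atTop.comp h1)
    refine le_of_tendsto h2.abs (Eventually.of_forall fun n => ?_)
    have hn : (0 : ℝ) < (n + 1 : ℕ) := by exact_mod_cast n.succ_pos
    have h3 : |g (x + ((n + 1 : ℕ) : ℝ)⁻¹ • v) - g x| ≤ ((n + 1 : ℕ) : ℝ)⁻¹ * g v := by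
      have h4 := abs_sub_map_le_sub g (x + ((n + 1 : ℕ) : ℝ)⁻¹ • v) x
      rw [add_sub_cancel_left, map_smul_eq_mul, Real.norm_of_nonneg (inv_pos.2 hn).le] at h4
      exact h4
    rw [smul_eq_mul, abs_mul, abs_of_pos hn]
    calc ((n + 1 : ℕ) : ℝ) * |g (x + ((n + 1 : ℕ) : ℝ)⁻¹ • v) - g x|
        ≤ ((n + 1 : ℕ) : ℝ) * (((n + 1 : ℕ) : ℝ)⁻¹ * g v) := by gcongr
      _ = g v := by field_simp
  · rw [fderiv_zero_of_not_differentiableAt hd]
    simp

/-- The mean of the derivative in direction `u` over the half space `l ≥ 0`. -/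
theorem half (g : Seminorm ℝ E) (c : ℝ) (hc : 0 < c) (hcp : ∀ x, c * ‖x‖ ≤ g x)
    (l : E →ₗ[ℝ] ℝ) (u : E) (hu : l u = 1)
    (hmono : ∀ x, ∀ s : ℝ, 0 ≤ l x → 0 ≤ s → g x ≤ g (x + s • u)) (q : ℝ≥0∞)
    (hq : ∀ S : Set ℝ, MeasurableSet S → ∫⁻ x in {x | l x ∈ S}, ex g x ≤ q * volume S) :
    ∫⁻ x in {x | 0 ≤ l x}, ex g x * ENNReal.ofReal |fderiv ℝ g x u| ≤ q := by
  have hg := semi_cont g
  have hem := ex_meas g hg
  have hlc : Continuous l := l.continuous_of_finiteDimensional
  have hZ := ex_fin g hg c hc hcp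
  set H : Set E := {x | 0 ≤ l x} with hH
  have hHm : MeasurableSet H := (isClosed_le continuous_const hlc).measurableSet
  set f : E → ℝ := fun x => Real.exp (-(g x)) with hf
  have hfc : Continuous f := Real.continuous_exp.comp hg.neg
  have hexf : ∀ x, ex g x = ENNReal.ofReal (f x) := fun x => rfl
  -- the difference quotients
  have hdiff : ∀ δ : ℝ, 0 < δ → ∫⁻ x in H, ENNReal.ofReal (f x - f (x + δ • u))
      ≤ q * ENNReal.ofReal δ := by
    intro δ hδ
    set A : Set E := {x | δ ≤ l x} with hA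
    have hAm : MeasurableSet A := (isClosed_le continuous_const hlc).measurableSet
    set B : Set E := {x | l x ∈ Ico 0 δ} with hB
    have hBm : MeasurableSet B := hlc.measurable measurableSet_Ico
    have hHAB : H = B ∪ A := by
      ext x
      simp only [hH, hA, hB, mem_union, mem_Ico]
      show 0 ≤ l x ↔ (0 ≤ l x ∧ l x < δ) ∨ δ ≤ l x
      constructor
      · intro h
        rcases lt_or_ge (l x) δ with h1 | h1
        · exact Or.inl ⟨h, h1⟩
        · exact Or.inr h1
      · rintro (h | h)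
        · exact h.1
        · linarith
    have hdisj : Disjoint B A := by
      rw [Set.disjoint_left]
      intro x hx hx'
      have h1 : l x < δ := hx.2
      have h2 : δ ≤ l x := hx'
      linarith
    have e1 : ∫⁻ x in H, ex g (x + δ • u) = ∫⁻ x in A, ex g x := by
      rw [← lintegral_indicator hHm, ← lintegral_indicator hAm,
        ← lintegral_add_right_eq_self (A.indicator fun x => ex g x) (δ • u)]
      refine lintegral_congr fun x => ?_
      by_cases h : x ∈ H
      · have h' : x + δ • u ∈ A := by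
          show δ ≤ l (x + δ • u)
          rw [map_add, map_smul, hu, smul_eq_mul, mul_one]
          have : 0 ≤ l x := h
          linarith
        rw [indicator_of_mem h, indicator_of_mem h']
      · have h' : x + δ • u ∉ A := by
          intro h1
          apply h
          have h2 : δ ≤ l (x + δ • u) := h1
          rw [map_add, map_smul, hu, smul_eq_mul, mul_one] at h2
          show 0 ≤ l x
          linarith
        rw [indicator_of_notMem h, indicator_of_notMem h']
    have e2 : (∫⁻ x in H, ENNReal.ofReal (f x - f (x + δ • u))) + ∫⁻ x in A, ex g x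
        = (∫⁻ x in B, ex g x) + ∫⁻ x in A, ex g x := by
      have hm1 : Measurable fun x => ENNReal.ofReal (f x - f (x + δ • u)) := by
        have : Continuous fun x => f x - f (x + δ • u) :=
          hfc.sub (hfc.comp (continuous_id.add continuous_const))
        exact this.measurable.ennreal_ofReal
      rw [← lintegral_union hAm hdisj, ← hHAB, ← e1, ← lintegral_add_left hm1]
      refine setLIntegral_congr_fun hHm fun x hx => ?_
      show ENNReal.ofReal (f x - f (x + δ • u)) + ENNReal.ofReal (f (x + δ • u))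
        = ENNReal.ofReal (f x)
      have h1 : f (x + δ • u) ≤ f x := by
        apply Real.exp_le_exp.2
        rw [neg_le_neg_iff]
        exact hmono x δ hx hδ.le
      rw [← ENNReal.ofReal_add (by linarith) (Real.exp_pos _).le]
      congr 1
      ring
    have hAf : ∫⁻ x in A, ex g x ≠ ⊤ := ne_top_of_le_ne_top hZ (setLIntegral_le_lintegral _ _)
    have e3 := (ENNReal.add_left_inj hAf).1 e2
    rw [e3]
    refine (hq (Ico 0 δ) measurableSet_Ico).trans (le_of_eq ?_)
    rw [Real.volume_Ico, sub_zero]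
  -- Fatou
  set F : ℕ → E → ℝ≥0∞ := fun n x =>
    ENNReal.ofReal ((n + 1 : ℕ) : ℝ) * ENNReal.ofReal (f x - f (x + ((n + 1 : ℕ) : ℝ)⁻¹ • u))
    with hF
  have hFm : ∀ n, Measurable (F n) := by
    intro n
    have : Continuous fun x => f x - f (x + ((n + 1 : ℕ) : ℝ)⁻¹ • u) :=
      hfc.sub (hfc.comp (continuous_id.add continuous_const))
    exact (this.measurable.ennreal_ofReal).const_mul _
  have hFb : ∀ n, ∫⁻ x in H, F n x ≤ q := by
    intro n
    have hn : (0 : ℝ) < (n + 1 : ℕ) := by exact_mod_cast n.succ_pos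
    have h1 := hdiff _ (inv_pos.2 hn)
    calc ∫⁻ x in H, F n x = ENNReal.ofReal ((n + 1 : ℕ) : ℝ) *
          ∫⁻ x in H, ENNReal.ofReal (f x - f (x + ((n + 1 : ℕ) : ℝ)⁻¹ • u)) :=
          lintegral_const_mul' _ _ ENNReal.ofReal_ne_top
      _ ≤ ENNReal.ofReal ((n + 1 : ℕ) : ℝ) * (q * ENNReal.ofReal (((n + 1 : ℕ) : ℝ)⁻¹)) := by
          gcongr
      _ = q * (ENNReal.ofReal ((n + 1 : ℕ) : ℝ) * ENNReal.ofReal (((n + 1 : ℕ) : ℝ)⁻¹)) := by ring
      _ = q := by
          rw [← ENNReal.ofReal_mul hn.le, mul_inv_cancel₀ hn.ne', ENNReal.ofReal_one, mul_one]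
  have hpt : ∀ x ∈ H, ex g x * ENNReal.ofReal |fderiv ℝ g x u|
      ≤ liminf (fun n => F n x) atTop := by
    intro x hx
    by_cases hd : DifferentiableAt ℝ g x
    · have h1 : Tendsto (fun n : ℕ => ((n + 1 : ℕ) : ℝ)) atTop atTop :=
        tendsto_natCast_atTop_atTop.comp (tendsto_add_atTop_nat 1)
      have hD : HasFDerivAt f (Real.exp (-(g x)) • (-fderiv ℝ g x)) x :=
        (hd.hasFDerivAt.neg).exp
      have h2 := hD.lim u (c := fun n : ℕ => ((n + 1 : ℕ) : ℝ)) (l := atTop)
        (tendsto_norm_atTop_atTop.comp h1)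
      have h3 : Tendsto (fun n : ℕ => ((n + 1 : ℕ) : ℝ) *
          (f x - f (x + ((n + 1 : ℕ) : ℝ)⁻¹ • u))) atTop (𝓝 (f x * fderiv ℝ g x u)) := by
        have h4 := h2.neg
        have e : -((Real.exp (-(g x)) • (-fderiv ℝ g x)) u) = f x * fderiv ℝ g x u := by
          simp [hf]
        rw [e] at h4
        refine h4.congr fun n => ?_
        rw [smul_eq_mul]
        ring
      have hpos : 0 ≤ f x * fderiv ℝ g x u := by
        refine ge_of_tendsto h3 (Eventually.of_forall fun n => ?_)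
        have hn : (0 : ℝ) < (n + 1 : ℕ) := by exact_mod_cast n.succ_pos
        have h5 : f (x + ((n + 1 : ℕ) : ℝ)⁻¹ • u) ≤ f x := by
          apply Real.exp_le_exp.2
          rw [neg_le_neg_iff]
          exact hmono x _ hx (inv_pos.2 hn).le
        exact mul_nonneg hn.le (by linarith)
      have hfx : 0 < f x := Real.exp_pos _
      have hnn : 0 ≤ fderiv ℝ g x u := by
        by_contra hneg
        rw [not_le] at hneg
        have := mul_neg_of_pos_of_neg hfx hneg
        linarith
      have h6 : Tendsto (fun n => F n x) atTop (𝓝 (ENNReal.ofReal (f x * fderiv ℝ g x u))) := by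
        refine (ENNReal.tendsto_ofReal h3).congr fun n => ?_
        have hn : (0 : ℝ) < (n + 1 : ℕ) := by exact_mod_cast n.succ_pos
        rw [ENNReal.ofReal_mul hn.le]
      rw [h6.liminf_eq, ENNReal.ofReal_mul hfx.le, abs_of_nonneg hnn, hexf]
    · rw [fderiv_zero_of_not_differentiableAt hd]
      simp
  calc ∫⁻ x in H, ex g x * ENNReal.ofReal |fderiv ℝ g x u|
      ≤ ∫⁻ x in H, liminf (fun n => F n x) atTop := setLIntegral_mono' hHm hpt
    _ ≤ liminf (fun n => ∫⁻ x in H, F n x) atTop := lintegral_liminf_le hFm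
    _ ≤ liminf (fun _ : ℕ => q) atTop := liminf_le_liminf (Eventually.of_forall hFb)
    _ = q := liminf_const _

/-- The mean of the derivative in direction `u`. -/
theorem full (g : Seminorm ℝ E) (c : ℝ) (hc : 0 < c) (hcp : ∀ x, c * ‖x‖ ≤ g x)
    (l : E →ₗ[ℝ] ℝ) (u : E) (hu : l u = 1)
    (hmono : ∀ x, ∀ s : ℝ, 0 ≤ l x → 0 ≤ s → g x ≤ g (x + s • u)) (q : ℝ≥0∞)
    (hq : ∀ S : Set ℝ, MeasurableSet S → ∫⁻ x in {x | l x ∈ S}, ex g x ≤ q * volume S) :
    ∫⁻ x, ex g x * ENNReal.ofReal |fderiv ℝ g x u| ≤ 2 * q := by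
  have h1 := half g c hc hcp l u hu hmono q hq
  have h2 := half g c hc hcp (-l) (-u) (by simp [hu]) (fun x s hx hs => by
    have h3 := hmono (-x) s (by rw [map_neg]; exact hx) hs
    rw [map_neg_eq_map] at h3
    have e : -x + s • u = -(x + s • (-u)) := by module
    rw [e, map_neg_eq_map] at h3
    exact h3) q (fun S hS => by
    have h3 := hq (-S) hS.neg
    have e : {x : E | l x ∈ -S} = {x | (-l) x ∈ S} := by
      ext x; simp
    rw [e] at h3
    rwa [Measure.measure_neg] at h3)
  have e : ∀ x, |fderiv ℝ g x (-u)| = |fderiv ℝ g x u| := fun x => by rw [map_neg, abs_neg]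
  simp only [e] at h2
  have hcov : (univ : Set E) ⊆ {x | 0 ≤ l x} ∪ {x | 0 ≤ (-l) x} := by
    intro x _
    rcases le_total 0 (l x) with h | h
    · exact Or.inl h
    · right
      show 0 ≤ (-l) x
      rw [LinearMap.neg_apply]
      linarith
  calc ∫⁻ x, ex g x * ENNReal.ofReal |fderiv ℝ g x u|
      = ∫⁻ x in univ, ex g x * ENNReal.ofReal |fderiv ℝ g x u| := by rw [setLIntegral_univ]
    _ ≤ ∫⁻ x in {x | 0 ≤ l x} ∪ {x | 0 ≤ (-l) x}, ex g x * ENNReal.ofReal |fderiv ℝ g x u| :=
        lintegral_mono_set hcov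
    _ ≤ (∫⁻ x in {x | 0 ≤ l x}, ex g x * ENNReal.ofReal |fderiv ℝ g x u|) +
          ∫⁻ x in {x | 0 ≤ (-l) x}, ex g x * ENNReal.ofReal |fderiv ℝ g x u| :=
        lintegral_union_le _ _ _
    _ ≤ q + q := add_le_add h1 h2
    _ = 2 * q := (two_mul q).symm

end Pool.Agent.TH591.Un
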