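import Mathlib
import Pool.Agent.TH591.Un.Half

set_option autoImplicit false
set_option linter.unusedSectionVars false

/-!
# Unconditional norms: the mean square of the derivative
-/

namespace Pool.Agent.TH591.Un

open MeasureTheory Set Filter
open scoped ENNReal NNReal Topology
open Pool.Agent.TH591.Sm

theorem par (x y : ℝ) : ENNReal.ofReal ((x + y) ^ 2) + ENNReal.ofReal ((-x + y) ^ 2)
    = 2 * (ENNReal.ofReal (x ^ 2) + ENNReal.ofReal (y ^ 2)) := by
  have h2 : (2 : ℝ≥0∞) = ENNReal.ofReal 2 := by simp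
  rw [h2, ← ENNReal.ofReal_add (by positivity) (by positivity),
    ← ENNReal.ofReal_add (by positivity) (by positivity), ← ENNReal.ofReal_mul (by norm_num)]
  congr 1
  ring

theorem two_mul_200 : (2 : ℝ≥0∞) * ENNReal.ofReal 200 = ENNReal.ofReal 400 := by
  have h2 : (2 : ℝ≥0∞) = ENNReal.ofReal 2 := by simp
  rw [h2, ← ENNReal.ofReal_mul (by norm_num)]
  norm_num

/-- the space -/
abbrev Eu (d : ℕ) := EuclideanSpace ℝ (Fin d)

variable {d : ℕ}

/-- the coordinate functional -/
noncomputable def co (i : Fin d) : Eu d →ₗ[ℝ] ℝ :=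
  ((EuclideanSpace.proj i : Eu d →L[ℝ] ℝ) : Eu d →ₗ[ℝ] ℝ)

theorem co_apply (i : Fin d) (x : Eu d) : co i x = x i := rfl

/-- the basis vector -/
noncomputable def ee (i : Fin d) : Eu d := EuclideanSpace.single i (1 : ℝ)

theorem ee_apply (i j : Fin d) : (ee i : Eu d) j = if j = i then 1 else 0 := by
  simp [ee]

theorem co_ee (i : Fin d) : co i (ee i) = 1 := by
  rw [co_apply, ee_apply, if_pos rfl]

theorem sum_ee (v : Eu d) : ∑ i, v i • (ee i : Eu d) = v := by
  ext j
  simp [ee_apply]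

/-- the reflection -/
noncomputable def rf (i : Fin d) : Eu d ≃ₗᵢ[ℝ] Eu d :=
  LinearIsometryEquiv.piLpCongrRight 2 fun j =>
    if j = i then LinearIsometryEquiv.neg ℝ else LinearIsometryEquiv.refl ℝ ℝ

theorem rf_apply (i : Fin d) (x : Eu d) (j : Fin d) :
    rf i x j = if j = i then -x j else x j := by
  show (if j = i then LinearIsometryEquiv.neg ℝ else LinearIsometryEquiv.refl ℝ ℝ :
    ℝ ≃ₗᵢ[ℝ] ℝ) (x j) = _
  split_ifs <;> simp

/-- unconditional -/
def Unc (g : Seminorm ℝ (Eu d)) : Prop := ∀ x y : Eu d, (∀ i, |y i| = |x i|) → g y = g x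

variable (g : Seminorm ℝ (Eu d)) (hun : Unc g)

include hun

theorem rf_g (i : Fin d) (x : Eu d) : g (rf i x) = g x :=
  hun x _ fun j => by rw [rf_apply]; split_ifs <;> simp

theorem coord1 (x : Eu d) (i : Fin d) (y : Eu d) (hy : ∀ j, j ≠ i → y j = x j)
    (hyi : |y i| ≤ |x i|) : g y ≤ g x := by
  rcases eq_or_ne (x i) 0 with h0 | h0
  · have : y = x := by
      ext j
      rcases eq_or_ne j i with rfl | hj
      · rw [h0]
        rw [h0, abs_zero] at hyi
        exact abs_nonpos_iff.1 hyi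
      · exact hy j hj
    rw [this]
  · set t : ℝ := (1 - y i / x i) / 2 with ht
    have hr : |y i / x i| ≤ 1 := by
      rw [abs_div, div_le_one (abs_pos.2 h0)]
      exact hyi
    have hr' := abs_le.1 hr
    have ht0 : 0 ≤ t := by linarith [hr'.2]
    have ht1 : 0 ≤ 1 - t := by linarith [hr'.1]
    have e : y = (1 - t) • x + t • rf i x := by
      ext j
      rw [PiLp.add_apply, PiLp.smul_apply, PiLp.smul_apply, rf_apply, smul_eq_mul, smul_eq_mul]
      rcases eq_or_ne j i with rfl | hj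
      · rw [if_pos rfl, ht]
        field_simp
        ring
      · rw [if_neg hj, hy j hj]
        ring
    calc g y = g ((1 - t) • x + t • rf i x) := by rw [← e]
      _ ≤ g ((1 - t) • x) + g (t • rf i x) := map_add_le_add _ _ _
      _ = (1 - t) * g x + t * g (rf i x) := by
          rw [map_smul_eq_mul, map_smul_eq_mul, Real.norm_of_nonneg ht0, Real.norm_of_nonneg ht1]
      _ = g x := by rw [rf_g g hun]; ring

theorem down (x y : Eu d) (h : ∀ j, |y j| ≤ |x j|) : g y ≤ g x := by
  classical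
  let w : Finset (Fin d) → Eu d := fun S => WithLp.toLp 2 (fun j => if j ∈ S then y j else x j)
  have hw : ∀ S, g (w S) ≤ g x := by
    intro S
    induction S using Finset.induction_on with
    | empty =>
      have : w ∅ = x := by ext j; simp [w]
      rw [this]
    | insert i S hi ih =>
      refine (coord1 g hun (w S) i (w (insert i S)) ?_ ?_).trans ih
      · intro j hj
        show (if j ∈ insert i S then y j else x j) = if j ∈ S then y j else x j
        simp [Finset.mem_insert, hj]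
      · show |(if i ∈ insert i S then y i else x i)| ≤ |if i ∈ S then y i else x i|
        simp [hi, h i]
  have : w Finset.univ = y := by ext j; simp [w]
  rw [← this]
  exact hw _

theorem hmono (i : Fin d) (x : Eu d) (s : ℝ) (hx : 0 ≤ co i x) (hs : 0 ≤ s) :
    g x ≤ g (x + s • ee i) := by
  refine coord1 g hun _ i _ (fun j hj => ?_) ?_
  · rw [PiLp.add_apply, PiLp.smul_apply, ee_apply, if_neg hj, smul_zero, add_zero]
  · rw [PiLp.add_apply, PiLp.smul_apply, ee_apply, if_pos rfl, smul_eq_mul, mul_one]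
    rw [co_apply] at hx
    rw [abs_of_nonneg hx, abs_of_nonneg (by linarith)]
    linarith

theorem ex_rf (i : Fin d) (x : Eu d) : ex g (rf i x) = ex g x := by
  unfold ex
  rw [rf_g g hun]

omit hun in
theorem lint_rf (i : Fin d) (F : Eu d → ℝ≥0∞) : ∫⁻ x, F (rf i x) = ∫⁻ x, F x :=
  (rf i).measurePreserving.lintegral_comp_emb (rf i).toHomeomorph.measurableEmbedding F

theorem moments (a : Fin d → ℝ) (S : Finset (Fin d)) :
    ∫⁻ v : Eu d, ex g v * ENNReal.ofReal ((∑ i ∈ S, a i * v i) ^ 2)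
      = ∑ i ∈ S, ENNReal.ofReal (a i ^ 2) * ∫⁻ v : Eu d, ex g v * ENNReal.ofReal (v i ^ 2) := by
  classical
  have hg := semi_cont g
  have hem := ex_meas g hg
  have hco : ∀ i : Fin d, Continuous fun v : Eu d => v i := fun i =>
    (EuclideanSpace.proj i : Eu d →L[ℝ] ℝ).continuous
  induction S using Finset.induction_on with
  | empty => simp
  | insert i S hi ih =>
    rw [Finset.sum_insert hi, ← ih]
    set A := ∫⁻ v : Eu d, ex g v * ENNReal.ofReal ((∑ j ∈ insert i S, a j * v j) ^ 2) with hA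
    have h0 : A = ∫⁻ v : Eu d, ex g v *
        ENNReal.ofReal ((a i * v i + ∑ j ∈ S, a j * v j) ^ 2) := by
      rw [hA]
      simp only [Finset.sum_insert hi]
    have h1 : A = ∫⁻ v : Eu d, ex g v *
        ENNReal.ofReal ((-(a i * v i) + ∑ j ∈ S, a j * v j) ^ 2) := by
      rw [h0, ← lint_rf i]
      refine lintegral_congr fun v => ?_
      rw [ex_rf g hun]
      congr 3
      rw [rf_apply, if_pos rfl]
      congr 1
      · ring
      · refine Finset.sum_congr rfl fun j hj => ?_
        have hji : j ≠ i := by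
          rintro rfl
          exact hi hj
        rw [rf_apply, if_neg hji]
    have h2 : 2 * A = 2 * (ENNReal.ofReal (a i ^ 2) *
        (∫⁻ v : Eu d, ex g v * ENNReal.ofReal (v i ^ 2)) +
        ∫⁻ v : Eu d, ex g v * ENNReal.ofReal ((∑ j ∈ S, a j * v j) ^ 2)) := by
      have hc1 : Continuous fun v : Eu d => (a i * v i + ∑ j ∈ S, a j * v j) ^ 2 := by fun_prop
      have hc2 : Continuous fun v : Eu d => (v i) ^ 2 := by fun_prop
      have hm1 : Measurable fun v : Eu d => ex g v *
          ENNReal.ofReal ((a i * v i + ∑ j ∈ S, a j * v j) ^ 2) :=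
        hem.mul hc1.measurable.ennreal_ofReal
      have hm2 : Measurable fun v : Eu d => ex g v * ENNReal.ofReal ((v i) ^ 2) :=
        hem.mul hc2.measurable.ennreal_ofReal
      have e1 : 2 * A = ∫⁻ v : Eu d, (ex g v *
            ENNReal.ofReal ((a i * v i + ∑ j ∈ S, a j * v j) ^ 2) +
          ex g v * ENNReal.ofReal ((-(a i * v i) + ∑ j ∈ S, a j * v j) ^ 2)) := by
        rw [lintegral_add_left hm1, ← h0, ← h1, two_mul]
      rw [e1, ← lintegral_const_mul _ hm2, ← lintegral_add_left (hm2.const_mul _),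
        ← lintegral_const_mul' _ _ ENNReal.ofNat_ne_top]
      refine lintegral_congr fun v => ?_
      have e2 : ENNReal.ofReal ((a i * v i + ∑ j ∈ S, a j * v j) ^ 2) +
          ENNReal.ofReal ((-(a i * v i) + ∑ j ∈ S, a j * v j) ^ 2)
          = 2 * (ENNReal.ofReal (a i ^ 2) * ENNReal.ofReal (v i ^ 2) +
            ENNReal.ofReal ((∑ j ∈ S, a j * v j) ^ 2)) := by
        rw [par, mul_pow, ENNReal.ofReal_mul (by positivity)]
      rw [← mul_add, e2]
      ring
    exact (ENNReal.mul_right_inj two_ne_zero ENNReal.ofNat_ne_top).1 h2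

theorem double (c : ℝ) (hc : 0 < c) (hcp : ∀ x, c * ‖x‖ ≤ g x) :
    ∫⁻ x, ex g x * ∫⁻ v, ex g v * ENNReal.ofReal ((fderiv ℝ g x v) ^ 2)
      ≤ ENNReal.ofReal 400 * ((∫⁻ x, ex g x) * ∑ i, ENNReal.ofReal (g (ee i)) *
        ∫⁻ v, ex g v * ENNReal.ofReal |v i|) := by
  have hg := semi_cont g
  have hem := ex_meas g hg
  set M : Fin d → ℝ≥0∞ := fun i => ∫⁻ v : Eu d, ex g v * ENNReal.ofReal (v i ^ 2) with hM
  have hin : ∀ x : Eu d, ∫⁻ v, ex g v * ENNReal.ofReal ((fderiv ℝ g x v) ^ 2)
      = ∑ i, ENNReal.ofReal ((fderiv ℝ g x (ee i)) ^ 2) * M i := by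
    intro x
    rw [← moments g hun (fun i => fderiv ℝ g x (ee i)) Finset.univ]
    refine lintegral_congr fun v => ?_
    congr 3
    conv_lhs => rw [← sum_ee v]
    rw [map_sum]
    refine Finset.sum_congr rfl fun i _ => ?_
    rw [map_smul, smul_eq_mul, mul_comm]
  have hdm : ∀ i, Measurable fun x : Eu d => ex g x * ENNReal.ofReal |fderiv ℝ g x (ee i)| := by
    intro i
    refine hem.mul ?_
    exact (measurable_abs.comp (measurable_fderiv_apply_const ℝ g (ee i))).ennreal_ofReal
  have hfull : ∀ i, M i * (∫⁻ x, ex g x * ENNReal.ofReal |fderiv ℝ g x (ee i)|)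
      ≤ ENNReal.ofReal 400 * ((∫⁻ x, ex g x) * ∫⁻ v, ex g v * ENNReal.ofReal |v i|) := by
    intro i
    obtain ⟨q, -, h1, h2⟩ := marginal g c hc hcp (co i) (ee i) (co_ee i)
    have h3 := full g c hc hcp (co i) (ee i) (co_ee i) (hmono g hun i) q h2
    calc M i * (∫⁻ x, ex g x * ENNReal.ofReal |fderiv ℝ g x (ee i)|)
        ≤ M i * (2 * q) := by gcongr
      _ = 2 * (q * M i) := by ring
      _ ≤ 2 * (ENNReal.ofReal 200 * ((∫⁻ x, ex g x) * ∫⁻ x, ex g x * ENNReal.ofReal |co i x|)) := by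
          exact mul_le_mul' le_rfl h1
      _ = _ := by
          rw [← mul_assoc, two_mul_200]
          rfl
  simp only [hin]
  calc ∫⁻ x, ex g x * ∑ i, ENNReal.ofReal ((fderiv ℝ g x (ee i)) ^ 2) * M i
      ≤ ∫⁻ x, ∑ i, (M i * ENNReal.ofReal (g (ee i))) *
          (ex g x * ENNReal.ofReal |fderiv ℝ g x (ee i)|) := by
        refine lintegral_mono fun x => ?_
        rw [Finset.mul_sum]
        refine Finset.sum_le_sum fun i _ => ?_
        have h1 : ENNReal.ofReal ((fderiv ℝ g x (ee i)) ^ 2)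
            ≤ ENNReal.ofReal (g (ee i)) * ENNReal.ofReal |fderiv ℝ g x (ee i)| := by
          rw [← ENNReal.ofReal_mul (apply_nonneg g _), ← sq_abs, sq]
          apply ENNReal.ofReal_le_ofReal
          exact mul_le_mul_of_nonneg_right (df_le g x _) (abs_nonneg _)
        calc ex g x * (ENNReal.ofReal ((fderiv ℝ g x (ee i)) ^ 2) * M i)
            ≤ ex g x * ((ENNReal.ofReal (g (ee i)) * ENNReal.ofReal |fderiv ℝ g x (ee i)|)
              * M i) := by gcongr
          _ = _ := by ring
    _ = ∑ i, (M i * ENNReal.ofReal (g (ee i))) *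
          ∫⁻ x, ex g x * ENNReal.ofReal |fderiv ℝ g x (ee i)| := by
        rw [lintegral_finsetSum _ fun i _ => (hdm i).const_mul _]
        exact Finset.sum_congr rfl fun i _ => lintegral_const_mul _ (hdm i)
    _ ≤ ∑ i, ENNReal.ofReal (g (ee i)) * (ENNReal.ofReal 400 *
          ((∫⁻ x, ex g x) * ∫⁻ v, ex g v * ENNReal.ofReal |v i|)) := by
        refine Finset.sum_le_sum fun i _ => ?_
        calc M i * ENNReal.ofReal (g (ee i)) *
              ∫⁻ x, ex g x * ENNReal.ofReal |fderiv ℝ g x (ee i)|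
            = ENNReal.ofReal (g (ee i)) *
              (M i * ∫⁻ x, ex g x * ENNReal.ofReal |fderiv ℝ g x (ee i)|) := by ring
          _ ≤ _ := mul_le_mul' le_rfl (hfull i)
    _ = _ := by
        rw [Finset.mul_sum, Finset.mul_sum]
        exact Finset.sum_congr rfl fun i _ => by ring

/-- The mean square of the derivative over the unit ball. -/
theorem mean_sq (c : ℝ) (hc : 0 < c) (hcp : ∀ x, c * ‖x‖ ≤ g x) :
    ∫⁻ x in {x : Eu d | g x ≤ 1}, ∫⁻ v in {x : Eu d | g x ≤ 1},
        ENNReal.ofReal ((fderiv ℝ g x v) ^ 2)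
      ≤ ENNReal.ofReal (400 / (d + 2)) * (volume {x : Eu d | g x ≤ 1} *
        ∑ i, ENNReal.ofReal (g (ee i)) *
          ∫⁻ v in {x : Eu d | g x ≤ 1}, ENNReal.ofReal |v i|) := by
  have hg := semi_cont g
  have hfr : Module.finrank ℝ (Eu d) = d := by simp
  set V := volume {x : Eu d | g x ≤ 1} with hV
  set D : Eu d × Eu d → ℝ≥0∞ := fun q => ENNReal.ofReal ((fderiv ℝ g q.1 q.2) ^ 2) with hD
  have hDm : Measurable D := ((df_meas g).pow_const 2).ennreal_ofReal
  have hem := ex_meas g hg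
  set I := ∫⁻ x in {x : Eu d | g x ≤ 1}, ∫⁻ v in {x : Eu d | g x ≤ 1}, D (x, v) with hI
  set A : Fin d → ℝ≥0∞ := fun i => ∫⁻ v in {x : Eu d | g x ≤ 1}, ENNReal.ofReal |v i| with hA
  have hZ : ∫⁻ x, ex g x = ENNReal.ofReal (d.factorial : ℝ) * V := by
    have h1 := layer g hg (fun _ => 1) measurable_const 0 (fun s _ x => by simp)
    simp only [one_mul] at h1
    unfold ex
    rw [h1, setLIntegral_one, add_zero, hfr]
  have hv : ∀ x, ∫⁻ v, ex g v * D (x, v) = ENNReal.ofReal ((d + 2).factorial : ℝ) *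
      ∫⁻ v in {x : Eu d | g x ≤ 1}, D (x, v) := by
    intro x
    have h1 := layer g hg (fun v => D (x, v)) (hDm.comp measurable_prodMk_left) 2 (fun s _ v => by
      show ENNReal.ofReal ((fderiv ℝ g x (s • v)) ^ 2) = _ * ENNReal.ofReal ((fderiv ℝ g x v) ^ 2)
      rw [map_smul, smul_eq_mul, mul_pow, ENNReal.ofReal_mul (by positivity)])
    rw [hfr] at h1
    rw [← h1]
    exact lintegral_congr fun v => mul_comm _ _
  have hx : ∫⁻ x, ex g x * ∫⁻ v in {x : Eu d | g x ≤ 1}, D (x, v)
      = ENNReal.ofReal (d.factorial : ℝ) * I := by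
    have h1 := layer g hg (fun x => ∫⁻ v in {x : Eu d | g x ≤ 1}, D (x, v))
      (hDm.lintegral_prod_right') 0 (fun s hs x => by
        simp only [pow_zero, ENNReal.ofReal_one, one_mul, hD, df_smul g s hs x])
    rw [add_zero, hfr] at h1
    rw [← hI] at h1
    rw [← h1]
    exact lintegral_congr fun v => mul_comm _ _
  have hN : ∀ i, ∫⁻ v : Eu d, ex g v * ENNReal.ofReal |v i|
      = ENNReal.ofReal ((d + 1).factorial : ℝ) * A i := by
    intro i
    have hci : Continuous fun v : Eu d => |v i| :=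
      (EuclideanSpace.proj i : Eu d →L[ℝ] ℝ).continuous.abs
    have h1 := layer g hg (fun v : Eu d => ENNReal.ofReal |v i|)
      hci.measurable.ennreal_ofReal 1 (fun s hs v => by
        rw [PiLp.smul_apply, smul_eq_mul, abs_mul, abs_of_pos hs, ENNReal.ofReal_mul hs.le,
          pow_one])
    rw [hfr] at h1
    rw [hA, ← h1]
    exact lintegral_congr fun v => mul_comm _ _
  have hmain := double g hun c hc hcp
  have e1 : ∫⁻ x, ex g x * ∫⁻ v, ex g v * ENNReal.ofReal ((fderiv ℝ g x v) ^ 2)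
      = ENNReal.ofReal (((d + 2).factorial : ℝ) * (d.factorial : ℝ)) * I := by
    calc ∫⁻ x, ex g x * ∫⁻ v, ex g v * D (x, v)
        = ∫⁻ x, ENNReal.ofReal ((d + 2).factorial : ℝ) *
            (ex g x * ∫⁻ v in {x : Eu d | g x ≤ 1}, D (x, v)) := by
          refine lintegral_congr fun x => ?_
          rw [hv]
          ring
      _ = _ := by
          rw [lintegral_const_mul' _ _ ENNReal.ofReal_ne_top, hx,
            ENNReal.ofReal_mul (by positivity), mul_assoc]
  rw [e1, hZ] at hmain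
  simp only [hN] at hmain
  have hfd : (0 : ℝ) < (d.factorial : ℝ) := by exact_mod_cast d.factorial_pos
  have hfd1 : (0 : ℝ) < ((d + 1).factorial : ℝ) := by exact_mod_cast (d + 1).factorial_pos
  have hfd2 : ((d + 2).factorial : ℝ) = (d + 2) * (d + 1).factorial := by
    rw [Nat.factorial_succ]
    push_cast
    ring
  have e2 : ENNReal.ofReal 400 * (ENNReal.ofReal (d.factorial : ℝ) * V *
      ∑ i, ENNReal.ofReal (g (ee i)) * (ENNReal.ofReal ((d + 1).factorial : ℝ) * A i))
      = ENNReal.ofReal (((d + 2).factorial : ℝ) * (d.factorial : ℝ)) *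
        (ENNReal.ofReal (400 / (d + 2)) * (V * ∑ i, ENNReal.ofReal (g (ee i)) * A i)) := by
    have e3 : ∑ i, ENNReal.ofReal (g (ee i)) * (ENNReal.ofReal ((d + 1).factorial : ℝ) * A i)
        = ENNReal.ofReal ((d + 1).factorial : ℝ) * ∑ i, ENNReal.ofReal (g (ee i)) * A i := by
      rw [Finset.mul_sum]
      exact Finset.sum_congr rfl fun i _ => by ring
    have e4 : ((d + 2).factorial : ℝ) * (d.factorial : ℝ) * (400 / (d + 2))
        = 400 * ((d.factorial : ℝ) * ((d + 1).factorial : ℝ)) := by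
      rw [hfd2]
      field_simp
    rw [e3, ← mul_assoc (ENNReal.ofReal (((d + 2).factorial : ℝ) * (d.factorial : ℝ))),
      ← ENNReal.ofReal_mul (by positivity), e4, ENNReal.ofReal_mul (by norm_num),
      ENNReal.ofReal_mul (by positivity)]
    ring
  rw [e2] at hmain
  have hne : ENNReal.ofReal (((d + 2).factorial : ℝ) * (d.factorial : ℝ)) ≠ 0 := by
    rw [Ne, ENNReal.ofReal_eq_zero, not_le]
    rw [hfd2]
    positivity
  exact (ENNReal.mul_le_mul_iff_right hne ENNReal.ofReal_ne_top).1 hmain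

end Pool.Agent.TH591.Un
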