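import Mathlib
import Pool.Agent.Results.MP_eba1ef_gt.ThinSlabs
import Pool.Agent.TH591.Lie.Final
import Pool.Agent.TH591.Un.Main

set_option autoImplicit false
set_option linter.unusedSectionVars false

/-!
# Unconditional bodies: flatness and means of the coordinates
-/

namespace Pool.Agent.TH591.Un

open MeasureTheory Set Filter
open scoped ENNReal NNReal Topology
open Pool.Agent.TH591.Sm
open Pool.Agent.Results.MP_eba1ef_gt.ThinSlabs (flatness balanced_of_symm)

section
variable {d : ℕ} {K : Set (Eu d)} (hK : Convex ℝ K) (hKc : IsCompact K)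
  (hKi : (interior K).Nonempty) (hKu : ∀ x ∈ K, ∀ y : Eu d, (∀ i, |y i| = |x i|) → y ∈ K)
  {h : Fin d → ℝ} (hh : ∀ i, IsGreatest {t : ℝ | (EuclideanSpace.single i t : Eu d) ∈ K} (h i))

include hKu in
theorem symm_K : ∀ x ∈ K, -x ∈ K := fun x hx => hKu x hx _ fun i => by simp

include hK hKi hKu in
theorem nhds_K : K ∈ nhds (0 : Eu d) := by
  have hKs := symm_K hKu
  obtain ⟨z, hz⟩ := hKi
  have hnegK : -K = K := by
    ext x
    rw [Set.mem_neg]
    exact ⟨fun h => by simpa using hKs _ h, fun h => hKs x h⟩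
  have hz' : -z ∈ interior K := by
    have h1 : -z ∈ -(interior K) := by simpa using hz
    have h2 : -(interior K) = interior (-K) := by
      rw [← Set.image_neg_eq_neg, ← Set.image_neg_eq_neg]
      exact (Homeomorph.neg _).image_interior K
    rw [h2, hnegK] at h1
    exact h1
  have h0i : (0 : Eu d) ∈ interior K := by
    have h := hK.interior hz hz' (show (0 : ℝ) ≤ 1 / 2 by norm_num)
      (show (0 : ℝ) ≤ 1 / 2 by norm_num) (by norm_num)
    have e : (1 / 2 : ℝ) • z + (1 / 2 : ℝ) • (-z) = 0 := by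
      rw [smul_neg, add_neg_cancel]
    rwa [e] at h
  exact mem_interior_iff_mem_nhds.mp h0i

include hK hKc hKi hKu in
/-- the norm -/
theorem exists_norm : ∃ p : Seminorm ℝ (Eu d), (gauge K) = (p : Eu d → ℝ) ∧
    (∀ y, y ∈ K ↔ p y ≤ 1) ∧ Unc p ∧ ∃ R : ℝ, 0 < R ∧ (∀ x ∈ K, ‖x‖ ≤ R) ∧
      ∀ x, (1 / R) * ‖x‖ ≤ p x := by
  have hKs := symm_K hKu
  have hnhds := nhds_K hK hKi hKu
  have habs : Absorbent ℝ K := absorbent_nhds_zero hnhds
  let p : Seminorm ℝ (Eu d) := gaugeSeminorm (balanced_of_symm hK hKs) hK habs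
  have hp : ∀ x, p x = gauge K x := fun x => rfl
  have hmem : ∀ y, y ∈ K ↔ p y ≤ 1 := by
    intro y
    rw [hp, gauge_le_one_iff_mem_closure hK hnhds, hKc.isClosed.closure_eq]
  obtain ⟨R, hR0, hR⟩ : ∃ R : ℝ, 0 < R ∧ K ⊆ Metric.closedBall 0 R := by
    obtain ⟨R, hR⟩ := hKc.isBounded.subset_closedBall (0 : Eu d)
    exact ⟨max R 1, by positivity, hR.trans (Metric.closedBall_subset_closedBall (le_max_left _ _))⟩
  refine ⟨p, rfl, hmem, ?_, R, hR0, fun x hx => by simpa using hR hx, ?_⟩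
  · intro x y hxy
    rw [hp, hp, gauge_def', gauge_def']
    congr 1
    ext r
    constructor
    · rintro ⟨hr, hm⟩
      refine ⟨hr, hKu _ hm _ fun i => ?_⟩
      rw [PiLp.smul_apply, PiLp.smul_apply, smul_eq_mul, smul_eq_mul, abs_mul, abs_mul, hxy i]
    · rintro ⟨hr, hm⟩
      refine ⟨hr, hKu _ hm _ fun i => ?_⟩
      rw [PiLp.smul_apply, PiLp.smul_apply, smul_eq_mul, smul_eq_mul, abs_mul, abs_mul, hxy i]
  · intro x
    rw [hp, one_div, mul_comm, ← div_eq_mul_inv]
    exact le_gauge_of_subset_closedBall habs hR0.le hR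

theorem single_ee (i : Fin d) (t : ℝ) : (EuclideanSpace.single i t : Eu d) = t • ee i := by
  ext j
  simp [ee]

include hh in
theorem half_axes (p : Seminorm ℝ (Eu d)) (hmem : ∀ y, y ∈ K ↔ p y ≤ 1) (R : ℝ) (hR0 : 0 < R)
    (hcp : ∀ x, (1 / R) * ‖x‖ ≤ p x) (i : Fin d) : 0 < h i ∧ h i * p (ee i) = 1 := by
  have hpe : 0 < p (ee i) := by
    have h1 := hcp (ee i)
    have h2 : ‖(ee i : Eu d)‖ = 1 := by simp [ee]
    rw [h2] at h1
    have : 0 < 1 / R * 1 := by positivity
    linarith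
  have h1 : (p (ee i))⁻¹ ≤ h i := by
    apply (hh i).2
    show (EuclideanSpace.single i (p (ee i))⁻¹ : Eu d) ∈ K
    rw [hmem, single_ee, map_smul_eq_mul, Real.norm_of_nonneg (inv_pos.2 hpe).le,
      inv_mul_cancel₀ hpe.ne']
  have h2 : 0 < h i := lt_of_lt_of_le (inv_pos.2 hpe) h1
  have h3 : p (EuclideanSpace.single i (h i)) ≤ 1 := (hmem _).1 (hh i).1
  rw [single_ee, map_smul_eq_mul, Real.norm_of_nonneg h2.le] at h3
  refine ⟨h2, le_antisymm h3 ?_⟩
  rw [inv_le_iff_one_le_mul₀ hpe] at h1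
  exact h1

include hK hKc hKi hKu hh in
/-- The flatness of an unconditional body is small if its coordinates are small in the mean. -/
theorem flat_of_mean (hd : 1 ≤ d) (M : ℝ) (hM : 0 < M)
    (hmean : ⨍ x in K, ∑ i, |x i| / h i ≤ M * d) : flatness K ≤ 20 * √M := by
  have hnhds := nhds_K hK hKi hKu
  obtain ⟨p, hpf, hmem, hunc, R, hR0, hR, hcp⟩ := exists_norm hK hKc hKi hKu
  have hha := fun i => half_axes hh p hmem R hR0 hcp i
  have hball : {y : Eu d | p y ≤ 1} = K := by
    ext y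
    exact (hmem y).symm
  have hV0 : volume K ≠ 0 := (Measure.measure_pos_of_mem_nhds volume hnhds).ne'
  have hVt : volume K ≠ ⊤ := hKc.measure_lt_top.ne
  have hVr : 0 < (volume K).toReal := ENNReal.toReal_pos hV0 hVt
  have hd0 : (0 : ℝ) < d := by exact_mod_cast (by omega : 0 < d)
  have hci : ∀ i, Continuous fun v : Eu d => |v i| := fun i =>
    (EuclideanSpace.proj i : Eu d →L[ℝ] ℝ).continuous.abs
  have hii : ∀ i, IntegrableOn (fun v : Eu d => |v i|) K := fun i =>
    (hci i).continuousOn.integrableOn_compact hKc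
  set m : Fin d → ℝ := fun i => ∫ z in K, |z i| with hm
  have hm0 : ∀ i, 0 ≤ m i := fun i => integral_nonneg fun z => abs_nonneg _
  have hlin : ∀ i, ∫⁻ z in K, ENNReal.ofReal |z i| = ENNReal.ofReal (m i) := fun i =>
    (ofReal_integral_eq_lintegral_ofReal (hii i) (Eventually.of_forall fun z => abs_nonneg _)).symm
  have hpe : ∀ i, p (ee i) = 1 / h i := by
    intro i
    rw [eq_div_iff (hha i).1.ne', mul_comm]
    exact (hha i).2
  -- the sum of the means
  have hsum : ∑ i, p (ee i) * m i ≤ M * d * (volume K).toReal := by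
    rw [setAverage_eq, smul_eq_mul, inv_mul_le_iff₀ (by exact hVr)] at hmean
    have e : ∫ x in K, ∑ i, |x i| / h i = ∑ i, p (ee i) * m i := by
      rw [integral_finsetSum _ fun i _ => (hii i).div_const _]
      refine Finset.sum_congr rfl fun i _ => ?_
      rw [integral_div, hpe i]
      ring
    rw [e] at hmean
    calc ∑ i, p (ee i) * m i ≤ (volume K).toReal * (M * d) := hmean
      _ = _ := by ring
  have hsq := mean_sq p hunc (1 / R) (by positivity) hcp
  rw [hball] at hsq
  have hsumE : ∑ i, ENNReal.ofReal (p (ee i)) * ∫⁻ v in K, ENNReal.ofReal |v i|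
      ≤ ENNReal.ofReal (M * d) * volume K := by
    have e1 : ∑ i, ENNReal.ofReal (p (ee i)) * ∫⁻ v in K, ENNReal.ofReal |v i|
        = ENNReal.ofReal (∑ i, p (ee i) * m i) := by
      rw [ENNReal.ofReal_sum_of_nonneg fun i _ => mul_nonneg (apply_nonneg p _) (hm0 i)]
      refine Finset.sum_congr rfl fun i _ => ?_
      rw [hlin i, ENNReal.ofReal_mul (apply_nonneg p _)]
    have e2 : ENNReal.ofReal (M * d * (volume K).toReal)
        = ENNReal.ofReal (M * d) * volume K := by
      rw [ENNReal.ofReal_mul (p := M * d) (by positivity), ENNReal.ofReal_toReal hVt]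
    rw [e1, ← e2]
    exact ENNReal.ofReal_le_ofReal hsum
  have hρ0 : 0 < 20 * √M := by positivity
  have hsq' : ∫⁻ x in K, ∫⁻ v in K, ENNReal.ofReal ((fderiv ℝ p x v) ^ 2)
      ≤ ENNReal.ofReal ((20 * √M) ^ 2) * volume K ^ 2 := by
    refine hsq.trans ?_
    calc ENNReal.ofReal (400 / (d + 2)) *
          (volume K * ∑ i, ENNReal.ofReal (p (ee i)) * ∫⁻ v in K, ENNReal.ofReal |v i|)
        ≤ ENNReal.ofReal (400 / (d + 2)) *
          (volume K * (ENNReal.ofReal (M * d) * volume K)) := by gcongr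
      _ = ENNReal.ofReal (400 / (d + 2) * (M * d)) * volume K ^ 2 := by
          rw [ENNReal.ofReal_mul (p := 400 / ((d : ℝ) + 2)) (by positivity)]
          ring
      _ ≤ _ := by
          refine mul_le_mul' (ENNReal.ofReal_le_ofReal ?_) le_rfl
          rw [mul_pow, Real.sq_sqrt hM.le]
          calc 400 / ((d : ℝ) + 2) * (M * d) = 400 * M * (d / (d + 2)) := by ring
            _ ≤ 400 * M * 1 := by
                gcongr
                rw [div_le_one (by positivity)]
                linarith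
            _ = 20 ^ 2 * M := by ring
  have hfi := flat_int p K hVt R hR hKc.measurableSet _ hρ0 hsq'
  unfold flatness
  rw [hpf, div_le_iff₀ (by positivity)]
  exact hfi

include hK hKc hKi hKu hh in
/-- A body without large boxes contains only points with a small sum of coordinates. -/
theorem sum_of_noBox (θ : ℝ) (hθ : 0 < θ)
    (hno : ∀ A : Finset (Fin d), θ * d ≤ A.card →
      ∃ x : Eu d, (∀ i, |x i| ≤ if i ∈ A then θ * h i else 0) ∧ x ∉ K) (z : Eu d) (hz : z ∈ K) :
    ∑ i, |z i| / h i ≤ 2 * θ * d := by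
  obtain ⟨p, hpf, hmem, hunc, R, hR0, hR, hcp⟩ := exists_norm hK hKc hKi hKu
  have hha := fun i => half_axes hh p hmem R hR0 hcp i
  set A : Finset (Fin d) := Finset.univ.filter fun i => θ ≤ |z i| / h i with hA
  have hcard : (A.card : ℝ) < θ * d := by
    by_contra hlt
    rw [not_lt] at hlt
    obtain ⟨x, hx, hxK⟩ := hno A hlt
    apply hxK
    rw [hmem]
    refine (down p hunc z x fun j => ?_).trans ((hmem z).1 hz)
    have h1 := hx j
    split_ifs at h1 with hj
    · rw [hA, Finset.mem_filter, le_div_iff₀ (hha j).1] at hj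
      exact h1.trans hj.2
    · exact h1.trans (abs_nonneg _)
  have hle : ∀ i, |z i| / h i ≤ 1 := by
    intro i
    have h1 : p (z i • ee i) ≤ p z := by
      refine down p hunc z _ fun j => ?_
      rw [PiLp.smul_apply, ee_apply, smul_eq_mul]
      split_ifs with hj
      · rw [mul_one, hj]
      · rw [mul_zero, abs_zero]
        exact abs_nonneg _
    rw [map_smul_eq_mul, Real.norm_eq_abs] at h1
    have h2 := (hmem z).1 hz
    rw [div_le_one (hha i).1]
    have h3 := (hha i).2
    have h4 := (hha i).1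
    calc |z i| = (|z i| * p (ee i)) * h i := by rw [mul_assoc, mul_comm (p (ee i)), h3, mul_one]
      _ ≤ 1 * h i := mul_le_mul_of_nonneg_right (h1.trans h2) h4.le
      _ = h i := one_mul _
  calc ∑ i, |z i| / h i ≤ ∑ i, ((if i ∈ A then 1 else 0) + θ) := by
        refine Finset.sum_le_sum fun i _ => ?_
        split_ifs with hi
        · have := hle i
          linarith
        · rw [hA, Finset.mem_filter, not_and, not_le] at hi
          have := hi (Finset.mem_univ _)
          linarith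
    _ = A.card + θ * d := by
        rw [Finset.sum_add_distrib, Finset.sum_ite_mem, Finset.univ_inter]
        simp
        ring
    _ ≤ 2 * θ * d := by linarith

include hK hKc hKi hKu in
theorem average_le (c : ℝ) (hc : ∀ z ∈ K, ∑ i, |z i| / h i ≤ c) :
    ⨍ x in K, ∑ i, |x i| / h i ≤ c := by
  have hnhds := nhds_K hK hKi hKu
  have hV0 : volume K ≠ 0 := (Measure.measure_pos_of_mem_nhds volume hnhds).ne'
  have hVt : volume K ≠ ⊤ := hKc.measure_lt_top.ne
  have hVr : 0 < (volume K).toReal := ENNReal.toReal_pos hV0 hVt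
  have hci : Continuous fun x : Eu d => ∑ i, |x i| / h i := by
    refine continuous_finsetSum _ fun i _ => ?_
    exact ((EuclideanSpace.proj i : Eu d →L[ℝ] ℝ).continuous.abs).div_const _
  rw [setAverage_eq, smul_eq_mul, inv_mul_le_iff₀ (by exact hVr)]
  calc ∫ x in K, ∑ i, |x i| / h i ≤ ∫ _ in K, c :=
        setIntegral_mono_on (hci.continuousOn.integrableOn_compact hKc)
          (integrableOn_const hVt) hKc.measurableSet hc
    _ = _ := by
        rw [setIntegral_const, smul_eq_mul]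

end

/-- the conclusion -/
def Covered {d : ℕ} (K : Set (EuclideanSpace ℝ (Fin d))) (s : ℝ) : Prop :=
  ∃ T : Finset (EuclideanSpace ℝ (Fin d)),
    K ⊆ ⋃ t ∈ T, (fun x => t + x) '' interior K ∧
    (T.card : ℝ) ≤ 1 + 13 * d * Real.log (4 * d + 1) * 2 ^ d * Real.exp (-(2 * s)) ∧
    (5 ≤ s → Real.log d ≤ s → T.card < 2 ^ d)

/-- The covering theorem. -/
theorem cover_mean (d : ℕ) (hd : 2 ≤ d) (K : Set (Eu d))
    (hK : Convex ℝ K) (hKc : IsCompact K) (hKi : (interior K).Nonempty)
    (hKu : ∀ x ∈ K, ∀ y : Eu d, (∀ i, |y i| = |x i|) → y ∈ K)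
    (h : Fin d → ℝ) (hh : ∀ i, IsGreatest {t : ℝ | (EuclideanSpace.single i t : Eu d) ∈ K} (h i))
    (M s : ℝ) (hM : 0 < M) (hs : s = 1 / (29600 * √M))
    (hmean : ⨍ x in K, ∑ i, |x i| / h i ≤ M * d) :
    ∃ T : Finset (EuclideanSpace ℝ (Fin d)),
      K ⊆ ⋃ t ∈ T, (fun x => t + x) '' interior K ∧
      (T.card : ℝ) ≤ 1 + 13 * d * Real.log (4 * d + 1) * 2 ^ d * Real.exp (-(2 * s)) ∧
      (5 ≤ s → Real.log d ≤ s → T.card < 2 ^ d) := by
  have hfl := flat_of_mean hK hKc hKi hKu hh (by omega) M hM hmean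
  have hKs := symm_K hKu
  have hρ0 : 0 < 20 * √M := by positivity
  obtain ⟨T, h1, h2, -⟩ :=
    (Pool.Agent.Results.MP_eba1ef_gt.ThinSlabs.result d hd K hK hKc hKi hKs).2.1 _ hρ0 hfl
  have e : -1 / (740 * (20 * √M)) = -(2 * s) := by
    rw [hs]
    have h5 : 0 < √M := by positivity
    field_simp
    norm_num
  rw [e] at h2
  refine ⟨T, h1, h2, fun hs5 hds => ?_⟩
  have hd1 : (1 : ℝ) ≤ d := by exact_mod_cast (by omega : 1 ≤ d)
  have h4 := Pool.Agent.TH591.Lie.strict_of_exp d hd1 s hs5 hds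
  have h5 : (4 : ℝ) ≤ 2 ^ d := by
    calc (4 : ℝ) = 2 ^ 2 := by norm_num
      _ ≤ 2 ^ d := pow_le_pow_right₀ (by norm_num) hd
  have h6 : (T.card : ℝ) < ((2 ^ d : ℕ) : ℝ) := by
    push_cast
    calc (T.card : ℝ) ≤ 1 + 13 * d * Real.log (4 * d + 1) * 2 ^ d * Real.exp (-(2 * s)) := h2
      _ = 1 + 13 / 18 * 2 ^ d * (18 * d * Real.log (4 * d + 1) * Real.exp (-(2 * s))) := by ring
      _ ≤ 1 + 13 / 18 * 2 ^ d * 1 := by gcongr
      _ < 2 ^ d := by linarith
  exact_mod_cast h6

end Pool.Agent.TH591.Un
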