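import Mathlib
import Pool.Agent.TH591.Un.Final

set_option autoImplicit false
set_option linter.unusedSectionVars false

/-!
# Lower estimates exclude large boxes in high dimensions
-/

namespace Pool.Agent.TH591.Un

open MeasureTheory Set Filter
open scoped ENNReal NNReal Topology

/-- the choice of `θ` -/
theorem exists_theta (q C : ℝ) (hq : 0 < q) (hC : 0 < C) : ∃ d₀ : ℕ, ∀ d : ℕ, d₀ ≤ d →
    ∃ θ s : ℝ, 0 < θ ∧ s = 1 / (29600 * √(2 * θ)) ∧ 5 ≤ s ∧ Real.log d ≤ s ∧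
      C ^ q < θ ^ (q + 1) * d := by
  have hCq : 0 < C ^ q := Real.rpow_pos_of_pos hC q
  have h2q : (0 : ℝ) < 2 ^ (q + 1) := Real.rpow_pos_of_pos (by norm_num) _
  set a : ℝ := 2 ^ (q + 1) * (C ^ q + 1) with ha
  have ha0 : 0 < a := by positivity
  set r : ℝ := 1 / (2 * (q + 1)) with hr
  have hr0 : 0 < r := by positivity
  set c : ℝ := 1 / (29600 * a ^ r) with hc
  have hc0 : 0 < c := by positivity
  have h1 : Tendsto (fun d : ℕ => c * (d : ℝ) ^ r) atTop atTop :=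
    ((tendsto_rpow_atTop hr0).comp tendsto_natCast_atTop_atTop).const_mul_atTop hc0
  have h2 : ∀ᶠ d : ℕ in atTop, 5 ≤ c * (d : ℝ) ^ r := h1.eventually_ge_atTop _
  have h3 : ∀ᶠ x : ℝ in atTop, ‖Real.log x‖ ≤ c * ‖x ^ r‖ :=
    (isLittleO_log_rpow_atTop hr0).bound hc0
  have h4 : ∀ᶠ d : ℕ in atTop, ‖Real.log (d : ℝ)‖ ≤ c * ‖(d : ℝ) ^ r‖ :=
    tendsto_natCast_atTop_atTop.eventually h3
  obtain ⟨d₀, hd₀⟩ := ((h2.and h4).and (eventually_ge_atTop 1)).exists_forall_of_atTop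
  refine ⟨d₀, fun d hd => ?_⟩
  obtain ⟨⟨h5, h6⟩, h7⟩ := hd₀ d hd
  have hd0 : (0 : ℝ) < d := by exact_mod_cast (by omega : 0 < d)
  set t : ℝ := (a / d) ^ r with ht
  have ht0 : 0 < t := by positivity
  have hst : √(2 * (t ^ 2 / 2)) = t := by
    rw [mul_div_cancel₀ _ (two_ne_zero)]
    exact Real.sqrt_sq ht0.le
  have hs : 1 / (29600 * √(2 * (t ^ 2 / 2))) = c * (d : ℝ) ^ r := by
    rw [hst, ht, hc, Real.div_rpow ha0.le hd0.le]
    have h8 : 0 < a ^ r := by positivity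
    have h9 : 0 < (d : ℝ) ^ r := by positivity
    field_simp
  refine ⟨t ^ 2 / 2, 1 / (29600 * √(2 * (t ^ 2 / 2))), by positivity, rfl, ?_, ?_, ?_⟩
  · rw [hs]; exact h5
  · rw [hs]
    calc Real.log d ≤ ‖Real.log (d : ℝ)‖ := Real.le_norm_self _
      _ ≤ c * ‖(d : ℝ) ^ r‖ := h6
      _ = c * (d : ℝ) ^ r := by rw [Real.norm_of_nonneg (by positivity)]
  · have h8 : (t ^ 2) ^ (q + 1) = a / d := by
      rw [← Real.rpow_natCast, ← Real.rpow_mul ht0.le, ht, ← Real.rpow_mul (by positivity)]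
      have : r * (((2 : ℕ) : ℝ) * (q + 1)) = 1 := by
        rw [hr]
        push_cast
        field_simp
      rw [this, Real.rpow_one]
    rw [Real.div_rpow (by positivity) (by norm_num), h8, ha]
    have h9 : 2 ^ (q + 1) * (C ^ q + 1) / ↑d / 2 ^ (q + 1) * ↑d = C ^ q + 1 := by
      field_simp
    rw [h9]
    linarith

/-- no large boxes -/
theorem noBox_of_lower (d : ℕ) (K : Set (Eu d)) (h : Fin d → ℝ) (h0 : ∀ i, 0 ≤ h i)
    (q C θ : ℝ) (hq : 0 < q) (hC : 0 < C) (hθ : 0 < θ)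
    (hlow : ∀ A : Finset (Fin d), (A.card : ℝ) ≤
      (C * gauge K (WithLp.toLp 2 fun i => if i ∈ A then h i else 0)) ^ q)
    (hd : C ^ q < θ ^ (q + 1) * d) (A : Finset (Fin d)) (hA : θ * d ≤ A.card) :
    ∃ x : Eu d, (∀ i, |x i| ≤ if i ∈ A then θ * h i else 0) ∧ x ∉ K := by
  classical
  set w : Eu d := WithLp.toLp 2 fun i => if i ∈ A then h i else 0 with hw
  refine ⟨θ • w, fun i => ?_, fun hmem => ?_⟩
  · rw [PiLp.smul_apply, smul_eq_mul]
    show |θ * (if i ∈ A then h i else 0)| ≤ _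
    split_ifs
    · rw [abs_of_nonneg (mul_nonneg hθ.le (h0 i))]
    · simp
  · have h1 : gauge K (θ • w) ≤ 1 := gauge_le_one_of_mem hmem
    rw [gauge_smul_of_nonneg hθ.le, smul_eq_mul] at h1
    have h2 : 0 ≤ gauge K w := gauge_nonneg _
    have h3 := hlow A
    have hθq : 0 < θ ^ q := Real.rpow_pos_of_pos hθ q
    have h4 : θ ^ q * (C * gauge K w) ^ q ≤ C ^ q := by
      rw [← Real.mul_rpow hθ.le (by positivity)]
      refine Real.rpow_le_rpow (by positivity) ?_ hq.le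
      nlinarith
    have h5 : θ ^ (q + 1) * d = θ ^ q * (θ * d) := by
      rw [Real.rpow_add hθ, Real.rpow_one]; ring
    have h6 : θ ^ q * (θ * d) ≤ θ ^ q * (C * gauge K w) ^ q :=
      mul_le_mul_of_nonneg_left (hA.trans h3) hθq.le
    linarith

end Pool.Agent.TH591.Un
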